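import Pool.Agent.EDG.StmtsC

/-!
# EDG, row RCN: two polynomials without common zeros have a constant resultant
-/

namespace Pool.Agent.EDG.H95

open Polynomial Pool.Agent.EDG.C

theorem rcn : RcnStmt := by
  intro R Q hR hQ h
  have key : ∀ c0 : ℂ, (eval₂RingHom (algebraMap ℂ ℂ) c0) (resultant R Q) ≠ 0 := by
    intro c0 h0
    set φ : ℂ[X] →+* ℂ := eval₂RingHom (algebraMap ℂ ℂ) c0 with hφ
    have h1 : resultant (R.map φ) (Q.map φ) = 0 := by
      have h2 := resultant_map_map (f := R) (g := Q) (m := R.natDegree) (n := Q.natDegree) φ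
      rw [hR.natDegree_map, hQ.natDegree_map, h2]
      exact h0
    have h3 := (resultant_eq_zero_iff.1 h1).2
    rw [isCoprime_iff_aeval_ne_zero_of_isAlgClosed ℂ ℂ] at h3
    push Not at h3
    obtain ⟨x0, h4, h5⟩ := h3
    refine h c0 x0 ?_ ?_
    · have h6 : ev c0 x0 R = (R.map φ).eval x0 := by
        rw [eval_map]
        rfl
      rw [h6, ← coe_aeval_eq_eval]
      exact h4
    · have h6 : ev c0 x0 Q = (Q.map φ).eval x0 := by
        rw [eval_map]
        rfl
      rw [h6, ← coe_aeval_eq_eval]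
      exact h5
  have hne : resultant R Q ≠ 0 := by
    intro h0
    apply key 0
    rw [h0, map_zero]
  refine ⟨hne, ?_⟩
  by_contra hdeg
  have h1 : 0 < (resultant R Q).degree := natDegree_pos_iff_degree_pos.1 (Nat.pos_of_ne_zero hdeg)
  obtain ⟨z, hz⟩ := Complex.exists_root h1
  apply key z
  exact hz

end Pool.Agent.EDG.H95
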