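import Pool.Agent.EDG.Stmts

/-!
# EDG, row FIN: the theorem (numerics)
-/

set_option autoImplicit false

namespace Pool.Agent.EDG.H95

open Polynomial Finset

theorem two_mul_lt_pow : ∀ w : ℕ, 3 ≤ w → 2 * w < 2 ^ w := by
  intro w hw
  induction w, hw using Nat.le_induction with
  | base => norm_num
  | succ w hw ih => rw [pow_succ]; omega

theorem lin_le_pow : ∀ L : ℕ, 9 ≤ L → 98 * L + 335 ≤ 4 * 2 ^ L := by
  intro L hL
  induction L, hL using Nat.le_induction with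
  | base => norm_num
  | succ L hL ih => rw [pow_succ]; omega

theorem five_pow_le (a : ℕ) : 5 ^ a ≤ 2 ^ (7 * a / 3 + 1) := by
  obtain ⟨q, r, hr, rfl⟩ : ∃ q r, r < 3 ∧ a = 3 * q + r :=
    ⟨a / 3, a % 3, Nat.mod_lt _ (by norm_num), by omega⟩
  have h1 : 7 * (3 * q + r) / 3 + 1 = 7 * q + (7 * r / 3 + 1) := by omega
  rw [h1, pow_add, pow_add, pow_mul, pow_mul]
  have h2 : ((5 : ℕ) ^ 3) ^ q ≤ (2 ^ 7) ^ q := Nat.pow_le_pow_left (by norm_num) q
  have h3 : (5 : ℕ) ^ r ≤ 2 ^ (7 * r / 3 + 1) := by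
    interval_cases r <;> norm_num
  exact Nat.mul_le_mul h2 h3

theorem pow_card_le (n : ℕ) (hn : 0 < n) : 2 ^ n.primeFactors.card ≤ n := by
  calc 2 ^ n.primeFactors.card ≤ ∏ p ∈ n.primeFactors, p :=
        Finset.pow_card_le_prod _ _ _ fun p hp => (Nat.prime_of_mem_primeFactors hp).two_le
    _ ≤ n := Nat.le_of_dvd hn (Nat.prod_primeFactors_dvd n)

theorem fin : FinStmt := by
  intro hSET hCOM hCMP n c hn hper
  obtain ⟨g, hg, hdeg⟩ := hSET n c hn hper
  have hgpos := hg.natDegree_pos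
  set D := g.natDegree with hD
  set d := (minpoly ℚ c).natDegree with hd
  have hdpos : 1 ≤ d := by omega
  by_cases hsmall : n / 40 ≤ 513
  · have key : ∀ A : ℕ, 2 ^ (n / 40) ≤ A → 2 ^ (n / 40) ≤ A * d := fun A hA =>
      hA.trans (Nat.le_mul_of_pos_right _ hdpos)
    exact key _ (Nat.pow_le_pow_right (by norm_num) hsmall)
  · push Not at hsmall
    obtain ⟨η, hη⟩ : ∃ η, n / 40 = η + 1 := ⟨n / 40 - 1, by omega⟩
    have hη1 : 513 ≤ η := by omega
    have hnη : 40 * (η + 1) ≤ n := by omega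
    have hlow : 2 ^ η < 2 * D := by
      by_contra hcon
      push Not at hcon
      set L := Nat.log 2 η with hL
      have hL1 : 2 ^ L ≤ η := Nat.pow_log_le_self 2 (by omega)
      have hL2 : η < 2 ^ (L + 1) := Nat.lt_pow_succ_log_self (by norm_num) η
      have hL9 : 9 ≤ L := by
        by_contra h9
        have h10 : (2 : ℕ) ^ (L + 1) ≤ 2 ^ 9 := Nat.pow_le_pow_right (by norm_num) (by omega)
        have h11 : (2 : ℕ) ^ 9 = 512 := by norm_num
        omega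
      have hL3 := lin_le_pow L hL9
      obtain ⟨μ, hμ⟩ : ∃ μ, μ = L + 4 := ⟨_, rfl⟩
      obtain ⟨ℓ, hℓ⟩ : ∃ ℓ, ℓ = 7 * (μ + η) / 3 + 1 := ⟨_, rfl⟩
      have hpow : (2 : ℕ) ^ μ = 8 * 2 ^ (L + 1) := by
        rw [hμ]
        have : (2 : ℕ) ^ (L + 4) = 8 * 2 ^ (L + 1) := by
          rw [show L + 4 = 3 + (L + 1) by ring, pow_add]
          norm_num
        exact this
      have a1 : 2 * ℓ + 1 ≤ 2 ^ μ := by
        rw [hpow]
        omega
      have a2 : 5 ^ (μ + η) ≤ 2 ^ ℓ := by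
        rw [hℓ]
        exact five_pow_le _
      have a3 : 14 * ℓ + 7 + 6 * η ≤ n := by omega
      obtain ⟨Ψ, hΨ1, hΨ2, hΨ3, hΨ4, hΨ5⟩ := hCOM n g hg μ η ℓ hcon a1 a2 a3
      have a4 : 2 * Ψ.natDegree ≤ 2 ^ (η + 1) := by
        rw [pow_succ]
        omega
      have a5 := hCMP n (η + 1) Ψ hn hΨ1 hΨ2 hΨ3 hΨ4 a4
      have a6 := pow_card_le n hn
      have a7 := two_mul_lt_pow n.primeFactors.card (by omega)
      omega
    have h1 : 2 ^ (n / 40) ≤ 8 * d := by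
      rw [hη, pow_succ]
      omega
    have h2 : (8 : ℕ) ≤ 2 ^ 513 := by
      calc (8 : ℕ) = 2 ^ 3 := by norm_num
        _ ≤ 2 ^ 513 := Nat.pow_le_pow_right (by norm_num) (by norm_num)
    exact h1.trans (Nat.mul_le_mul_right _ h2)

end Pool.Agent.EDG.H95
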